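import Mathlib

set_option autoImplicit false

/-!
# Covering truncated polytopes: the main lemma

Auxiliary file for `MP_eba1ef_gt.Truncations`.
-/

namespace Pool.Agent.Helper442_Trunc

open Filter Topology Set

variable {V : Type*} [NormedAddCommGroup V] [InnerProductSpace ℝ V] [FiniteDimensional ℝ V]

/-- `d` illuminates the point `x` of `B` -/
def Illum (B : Set V) (x d : V) : Prop := ∀ᶠ ε in 𝓝[>] (0 : ℝ), x + ε • d ∈ interior B

theorem illum_of_mem {B : Set V} (hB : Convex ℝ B) {x d : V} (hx : x ∈ B) {ε : ℝ} (hε : 0 < ε)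
    (h : x + ε • d ∈ interior B) : Illum B x d := by
  have h1 : ∀ᶠ η in 𝓝[>] (0 : ℝ), η ∈ Ioo (0 : ℝ) ε := Ioo_mem_nhdsGT hε
  refine h1.mono fun η hη => ?_
  have e : x + η • d = (η / ε) • (x + ε • d) + (1 - η / ε) • x := by
    have : (η / ε) • ε • d = η • d := by
      rw [smul_smul, div_mul_cancel₀ _ hε.ne']
    rw [smul_add, this, sub_smul, one_smul]
    abel
  rw [e]
  refine hB.combo_interior_self_mem_interior h hx (div_pos hη.1 hε) ?_ (by ring)
  rw [sub_nonneg, div_le_one hε]
  exact hη.2.le

theorem illum_interior {B : Set V} {x d : V} (hx : x ∈ interior B) : Illum B x d := by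
  have h1 : Tendsto (fun ε : ℝ => x + ε • d) (𝓝 0) (𝓝 x) := by
    have : Continuous fun ε : ℝ => x + ε • d := by fun_prop
    simpa using this.tendsto 0
  exact (h1.mono_left nhdsWithin_le_nhds).eventually (isOpen_interior.mem_nhds hx)

/-- covering from illuminating directions -/
theorem cover_of_dirs {K : Set V} (hK : Convex ℝ K) (hKc : IsCompact K) (D : Finset V)
    (hD : ∀ x ∈ K, ∃ d ∈ D, Illum K x d) :
    ∃ T : Finset V, T.card ≤ D.card ∧ K ⊆ ⋃ t ∈ T, (fun x => t + x) '' interior K := by
  classical
  -- open sets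
  let U : ℝ → Set V := fun ε => ⋃ d ∈ D, {x | x + ε • d ∈ interior K}
  have hU : ∀ ε, IsOpen (U ε) := fun ε => by
    refine isOpen_biUnion fun d _ => ?_
    exact isOpen_interior.preimage (by fun_prop)
  have hcov : K ⊆ ⋃ m : ℕ, U (1 / ((m : ℝ) + 1)) := by
    intro x hx
    obtain ⟨d, hd, h⟩ := hD x hx
    have h2 : Tendsto (fun m : ℕ => 1 / ((m : ℝ) + 1)) atTop (𝓝[>] 0) := by
      rw [tendsto_nhdsWithin_iff]
      exact ⟨tendsto_one_div_add_atTop_nhds_zero_nat, Eventually.of_forall fun m => by
        simp only [mem_Ioi]; positivity⟩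
    obtain ⟨m, hm⟩ := (h2.eventually h).exists
    exact mem_iUnion.2 ⟨m, mem_iUnion₂.2 ⟨d, hd, hm⟩⟩
  have hmono : ∀ x ∈ K, ∀ ε η : ℝ, 0 < η → η ≤ ε → x ∈ U ε → x ∈ U η := by
    intro x hx ε η hη hηε h
    obtain ⟨d, hd, h⟩ := mem_iUnion₂.1 h
    refine mem_iUnion₂.2 ⟨d, hd, ?_⟩
    have hε : 0 < ε := hη.trans_le hηε
    rcases hηε.eq_or_lt with rfl | hlt
    · exact h
    have e : x + η • d = (η / ε) • (x + ε • d) + (1 - η / ε) • x := by
      have : (η / ε) • ε • d = η • d := by
        rw [smul_smul, div_mul_cancel₀ _ hε.ne']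
      rw [smul_add, this, sub_smul, one_smul]
      abel
    show x + η • d ∈ interior K
    rw [e]
    refine hK.combo_interior_self_mem_interior h hx (div_pos hη hε) ?_ (by ring)
    rw [sub_nonneg, div_le_one hε]
    exact hηε
  obtain ⟨F, hF⟩ := hKc.elim_finite_subcover (fun m : ℕ => U (1 / ((m : ℝ) + 1)))
    (fun m => hU _) hcov
  -- the largest index
  let M : ℕ := F.sup id
  have hKM : ∀ x ∈ K, x ∈ U (1 / ((M : ℝ) + 1)) := by
    intro x hx
    obtain ⟨m, hm, h⟩ := mem_iUnion₂.1 (hF hx)
    refine hmono x hx _ _ (by positivity) ?_ h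
    have : m ≤ M := Finset.le_sup (f := id) hm
    have h' : (m : ℝ) ≤ M := by exact_mod_cast this
    gcongr
  refine ⟨D.image fun d => -((1 / ((M : ℝ) + 1)) • d), Finset.card_image_le, fun x hx => ?_⟩
  obtain ⟨d, hd, h⟩ := mem_iUnion₂.1 (hKM x hx)
  refine mem_iUnion₂.2 ⟨-((1 / ((M : ℝ) + 1)) • d), Finset.mem_image_of_mem _ hd, ?_⟩
  exact ⟨x + (1 / ((M : ℝ) + 1)) • d, h, by simp⟩

/-- directions from an interior point away from a vertex -/
theorem illum_vertex {P : Set V} (hP : Convex ℝ P) {p w x q : V} (hp : p ∈ interior P)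
    (hq : q ∈ P) {l : ℝ} (hl : 0 < l) (hl1 : l ≤ 1) (hw : w ∈ P)
    (hx : x = l • w + (1 - l) • q) : Illum P x (p - w) := by
  have hxP : x ∈ P := by rw [hx]; exact hP hw hq hl.le (by linarith) (by ring)
  refine illum_of_mem hP hxP (half_pos hl) ?_
  have e : x + (l / 2) • (p - w) = (l / 2) • p + (1 - l / 2) •
      ((l / 2 / (1 - l / 2)) • w + ((1 - l) / (1 - l / 2)) • q) := by
    have h2 : (1 - l / 2) ≠ 0 := by intro h; linarith
    rw [smul_add, smul_smul, smul_smul, mul_div_cancel₀ _ h2, mul_div_cancel₀ _ h2, hx]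
    module
  rw [e]
  have h2 : 0 < 1 - l / 2 := by linarith
  refine hP.combo_interior_self_mem_interior hp ?_ (half_pos hl) h2.le (by ring)
  refine hP hw hq (by positivity) (div_nonneg (by linarith) h2.le) ?_
  rw [← add_div, div_eq_one_iff_eq h2.ne']
  ring

/-- `u` is an outer normal vector of `B` at `x` -/
def IsNormal (B : Set V) (x u : V) : Prop := u ≠ 0 ∧ ∀ y ∈ B, (inner ℝ u y) ≤ (inner ℝ u x)

/-- a smooth point: the outer normal is unique up to a positive factor -/
def SmoothAt (B : Set V) (x : V) : Prop :=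
  ∀ u v : V, IsNormal B x u → IsNormal B x v → ∃ c : ℝ, 0 < c ∧ v = c • u

theorem closure_interior' {B : Set V} (hB : Convex ℝ B) (hne : (interior B).Nonempty) {y : V}
    (hy : y ∈ B) : y ∈ closure (interior B) := by
  rw [hB.closure_interior_eq_closure_of_nonempty_interior hne]
  exact subset_closure hy

theorem le_of_interior {B : Set V} (hB : Convex ℝ B) (hne : (interior B).Nonempty)
    {f : V →L[ℝ] ℝ} {c : ℝ} (h : ∀ a ∈ interior B, f a ≤ c) : ∀ y ∈ B, f y ≤ c := by
  intro y hy
  have h1 := closure_interior' hB hne hy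
  have h2 : IsClosed {z | f z ≤ c} := isClosed_le f.continuous continuous_const
  exact closure_minimal h h2 h1

theorem exists_normal {B : Set V} (hB : Convex ℝ B) (hne : (interior B).Nonempty) {x : V}
    (hx : x ∉ interior B) : ∃ u, IsNormal B x u := by
  obtain ⟨f, hf⟩ := geometric_hahn_banach_open_point hB.interior isOpen_interior hx
  have h1 := le_of_interior hB hne (f := f) (c := f x) fun a ha => (hf a ha).le
  refine ⟨(InnerProductSpace.toDual ℝ V).symm f, ?_, fun y hy => ?_⟩
  · intro h0
    obtain ⟨p, hp⟩ := hne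
    have h2 := hf p hp
    have h3 : f = 0 := by
      simpa using h0
    rw [h3] at h2
    simp at h2
  · rw [InnerProductSpace.toDual_symm_apply, InnerProductSpace.toDual_symm_apply]
    exact h1 y hy

theorem illum_smooth {B : Set V} (hB : Convex ℝ B) (hne : (interior B).Nonempty) {x : V}
    (hxB : x ∈ B) (hs : SmoothAt B x) {u v : V} (hu : IsNormal B x u) (huv : (inner ℝ u v) < 0) :
    Illum B x v := by
  by_contra hcon
  -- the ray does not meet the interior
  have hray : ∀ ε : ℝ, 0 < ε → x + ε • v ∉ interior B := fun ε hε h =>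
    hcon (illum_of_mem hB hxB hε h)
  let R : Set V := (fun ε : ℝ => x + ε • v) '' Ioi 0
  have hRc : Convex ℝ R := by
    have h1 : R = (AffineMap.lineMap x (x + v) : ℝ →ᵃ[ℝ] V) '' Ioi 0 := by
      refine image_congr fun ε _ => ?_
      rw [AffineMap.lineMap_apply, vsub_eq_sub, vadd_eq_add, add_sub_cancel_left, add_comm]
    rw [h1]
    exact (convex_Ioi 0).affine_image _
  have hdis : Disjoint (interior B) R := by
    rw [Set.disjoint_left]
    rintro z hz ⟨ε, hε, rfl⟩
    exact hray ε hε hz
  obtain ⟨f, c, h1, h2⟩ := geometric_hahn_banach_open hB.interior isOpen_interior hRc hdis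
  have h3 := le_of_interior hB hne (f := f) (c := c) fun a ha => (h1 a ha).le
  have h4 : ∀ ε : ℝ, 0 < ε → c ≤ f x + ε * f v := by
    intro ε hε
    have := h2 _ ⟨ε, hε, rfl⟩
    simpa using this
  have h5 : c ≤ f x := by
    have ht : Tendsto (fun ε : ℝ => f x + ε * f v) (𝓝[>] 0) (𝓝 (f x)) := by
      have : Continuous fun ε : ℝ => f x + ε * f v := by fun_prop
      have h := this.tendsto 0
      simp only [zero_mul, add_zero] at h
      exact h.mono_left nhdsWithin_le_nhds
    exact ge_of_tendsto ht (eventually_mem_nhdsWithin.mono fun ε hε => h4 ε hε)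
  have h6 : 0 ≤ f v := by
    have h7 := h4 1 one_pos
    have h8 := h3 x hxB
    linarith
  set u' : V := (InnerProductSpace.toDual ℝ V).symm f with hu'
  have hf : ∀ y, (inner ℝ u' y) = f y := fun y => by
    rw [hu', InnerProductSpace.toDual_symm_apply]
  have hn : IsNormal B x u' := by
    refine ⟨?_, fun y hy => ?_⟩
    · intro h0
      obtain ⟨p, hp⟩ := hne
      have h9 := h1 p hp
      have h10 := hf p
      have h11 := hf x
      rw [h0, inner_zero_left] at h10 h11
      linarith
    · rw [hf, hf]
      exact (h3 y hy).trans h5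
  obtain ⟨k, hk, hkk⟩ := hs u u' hu hn
  have h12 := hf v
  rw [hkk, inner_smul_left] at h12
  simp only [conj_trivial] at h12
  nlinarith

/-- **main lemma** -/
theorem main {ι : Type*} [Finite ι] (W : Finset V) (B : ι → Set V)
    (hB : ∀ j, Convex ℝ (B j)) (hBc : ∀ j, IsClosed (B j)) (K : Set V)
    (hK : K = convexHull ℝ (W : Set V) ∩ ⋂ j, B j) (hKi : (interior K).Nonempty)
    (hone : ∀ x ∈ K, ∀ i j, x ∈ frontier (B i) → x ∈ frontier (B j) → i = j)
    (hsm : ∀ x ∈ K, ∀ j, x ∈ frontier (B j) → SmoothAt (B j) x) :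
    ∃ T : Finset V, T.card ≤ W.card ∧ K ⊆ ⋃ t ∈ T, (fun x => t + x) '' interior K := by
  classical
  obtain ⟨p, hp⟩ := hKi
  have hPc : Convex ℝ (convexHull ℝ (W : Set V)) := convex_convexHull _ _
  have hKconv : Convex ℝ K := by
    rw [hK]; exact hPc.inter (convex_iInter hB)
  have hKcomp : IsCompact K := by
    rw [hK]
    exact (W.finite_toSet.isCompact_convexHull ℝ).inter_right (isClosed_iInter hBc)
  have hint : interior K = interior (convexHull ℝ (W : Set V)) ∩ ⋂ j, interior (B j) := by
    rw [hK, interior_inter, interior_iInter_of_finite]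
  have hp1 : p ∈ interior (convexHull ℝ (W : Set V)) := by
    rw [hint] at hp; exact hp.1
  have hp2 : ∀ j, p ∈ interior (B j) := by
    rw [hint] at hp; exact mem_iInter.1 hp.2
  have key : ∀ x ∈ K, ∃ w ∈ W, Illum K x (p - w) := by
    intro x hx
    have hx' := hx
    rw [hK] at hx'
    obtain ⟨hxP, hxB⟩ := hx'
    rw [mem_iInter] at hxB
    obtain ⟨l, hl0, hl1, hlx⟩ := Finset.mem_convexHull'.1 hxP
    -- vertices with positive weight
    have hvert : ∀ w ∈ W, 0 < l w → Illum (convexHull ℝ (W : Set V)) x (p - w) := by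
      intro w hw hlw
      have hle : l w ≤ 1 := by
        rw [← hl1]
        exact Finset.single_le_sum hl0 hw
      have hwP : w ∈ convexHull ℝ (W : Set V) := subset_convexHull _ _ hw
      rcases hle.eq_or_lt with h1 | h1
      · -- weight one
        have h2 : ∀ y ∈ W.erase w, l y = 0 := by
          have h3 : ∑ y ∈ W.erase w, l y = 0 := by
            have := Finset.add_sum_erase W l hw
            linarith
          exact (Finset.sum_eq_zero_iff_of_nonneg fun y hy => hl0 y (Finset.mem_of_mem_erase hy)).1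
            h3
        have h4 : x = w := by
          rw [← hlx, ← Finset.add_sum_erase W _ hw, h1, one_smul,
            Finset.sum_eq_zero fun y hy => by rw [h2 y hy, zero_smul], add_zero]
        refine illum_vertex hPc hp1 hwP hlw hle hwP ?_
        rw [h4, h1]
        simp
      · refine illum_vertex (q := (1 - l w)⁻¹ • ∑ y ∈ W.erase w, l y • y) hPc hp1 ?_ hlw hle hwP ?_
        · have h2 : 0 < 1 - l w := by linarith
          rw [Finset.smul_sum]
          simp only [smul_smul]
          refine hPc.sum_mem (fun y hy => ?_) ?_ fun y hy => subset_convexHull _ _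
            (Finset.mem_of_mem_erase hy)
          · exact mul_nonneg (inv_nonneg.2 h2.le) (hl0 y (Finset.mem_of_mem_erase hy))
          · rw [← Finset.mul_sum]
            have := Finset.add_sum_erase W l hw
            have h3 : ∑ y ∈ W.erase w, l y = 1 - l w := by linarith
            rw [h3, inv_mul_cancel₀ h2.ne']
        · have h2 : (1 - l w) ≠ 0 := by intro h; linarith
          rw [smul_smul, mul_inv_cancel₀ h2, one_smul, ← hlx]
          exact (Finset.add_sum_erase W (fun y => l y • y) hw).symm
    have hfin : ∀ w ∈ W, 0 < l w → (∀ j, Illum (B j) x (p - w)) → Illum K x (p - w) := by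
      intro w hw hlw h
      have h1 := hvert w hw hlw
      have h2 : ∀ᶠ ε in 𝓝[>] (0 : ℝ), ∀ j, x + ε • (p - w) ∈ interior (B j) :=
        eventually_all.2 h
      unfold Illum
      rw [hint]
      exact (h1.and h2).mono fun ε hε => ⟨hε.1, mem_iInter.2 hε.2⟩
    by_cases hex : ∃ j, x ∈ frontier (B j)
    · obtain ⟨j, hj⟩ := hex
      have hoth : ∀ i, i ≠ j → x ∈ interior (B i) := by
        intro i hij
        by_contra h
        apply hij
        refine hone x hx i j ?_ hj
        rw [(hBc i).frontier_eq]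
        exact ⟨hxB i, h⟩
      have hxj : x ∉ interior (B j) := by
        rw [(hBc j).frontier_eq] at hj
        exact hj.2
      obtain ⟨u, hu⟩ := exists_normal (hB j) ⟨p, hp2 j⟩ hxj
      have hup : (inner ℝ u p) < (inner ℝ u x) := by
        -- the functional is not maximal at an interior point
        obtain ⟨ε, hε, hεp⟩ := Metric.isOpen_iff.1 isOpen_interior p (hp2 j)
        have hun : 0 < ‖u‖ := norm_pos_iff.2 hu.1
        have h1 : p + (ε / 2 / ‖u‖) • u ∈ interior (B j) := by
          apply hεp
          rw [Metric.mem_ball, dist_eq_norm, add_sub_cancel_left, norm_smul, Real.norm_of_nonneg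
            (by positivity), div_mul_cancel₀ _ hun.ne']
          linarith
        have h2 := hu.2 _ (interior_subset h1)
        rw [inner_add_right, inner_smul_right, real_inner_self_eq_norm_sq] at h2
        have h3 : 0 < ε / 2 / ‖u‖ * ‖u‖ ^ 2 := by positivity
        linarith
      have hsum : 0 < ∑ w ∈ W, l w * (inner ℝ u (w - p)) := by
        have e : ∑ w ∈ W, l w * (inner ℝ u (w - p)) = (inner ℝ u x) - (inner ℝ u p) := by
          simp only [inner_sub_right, mul_sub, Finset.sum_sub_distrib]
          rw [← Finset.sum_mul, hl1, one_mul]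
          congr 1
          rw [← hlx, inner_sum]
          refine Finset.sum_congr rfl fun w _ => ?_
          rw [inner_smul_right]
        rw [e]
        linarith
      obtain ⟨w, hw, hpos⟩ : ∃ w ∈ W, 0 < l w * (inner ℝ u (w - p)) := by
        by_contra h
        push Not at h
        exact absurd (Finset.sum_nonpos h) (not_le.2 hsum)
      have hlw : 0 < l w := by
        rcases (hl0 w hw).eq_or_lt with h | h
        · rw [← h, zero_mul] at hpos
          exact absurd hpos (lt_irrefl _)
        · exact h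
      have huw : 0 < (inner ℝ u (w - p)) := (mul_pos_iff_of_pos_left hlw).1 hpos
      refine ⟨w, hw, hfin w hw hlw fun i => ?_⟩
      by_cases hij : i = j
      · rw [hij]
        refine illum_smooth (hB j) ⟨p, hp2 j⟩ (hxB j) (hsm x hx j hj) hu ?_
        have : (inner ℝ u (p - w)) = -(inner ℝ u (w - p)) := by rw [← inner_neg_right, neg_sub]
        rw [this]
        linarith
      · exact illum_interior (hoth i hij)
    · push Not at hex
      have hin : ∀ j, x ∈ interior (B j) := by
        intro j
        by_contra h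
        apply hex j
        rw [(hBc j).frontier_eq]
        exact ⟨hxB j, h⟩
      obtain ⟨w, hw, hlw⟩ : ∃ w ∈ W, 0 < l w := by
        by_contra h
        push Not at h
        have := Finset.sum_nonpos h
        rw [hl1] at this
        linarith
      exact ⟨w, hw, hfin w hw hlw fun j => illum_interior (hin j)⟩
  have := cover_of_dirs hKconv hKcomp (W.image fun w => p - w) fun x hx => by
    obtain ⟨w, hw, h⟩ := key x hx
    exact ⟨p - w, Finset.mem_image_of_mem _ hw, h⟩
  obtain ⟨T, hT, hc⟩ := this
  exact ⟨T, hT.trans Finset.card_image_le, hc⟩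

end Pool.Agent.Helper442_Trunc
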