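import Pool.Agent.Helper442_Trunc.Signs

set_option autoImplicit false

/-!
# Directions for the intersection of a cube and two slabs

Auxiliary file for `MP_eba1ef_gt.SymmetricFewFacets`.
-/

namespace Pool.Agent.Helper442_Trunc

open Finset Matrix Filter Topology

variable {n : ℕ}

/-- the sign vectors -/
noncomputable def signs (n : ℕ) : Finset (Fin n → ℝ) := by
  classical exact Fintype.piFinset fun _ => {1, -1}

theorem card_signs : (signs n).card = 2 ^ n := by
  classical
  rw [signs, Fintype.card_piFinset]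
  have h : ({1, -1} : Finset ℝ).card = 2 := by
    rw [Finset.card_pair (by norm_num)]
  rw [h]
  simp

theorem mem_signs {s : Fin n → ℝ} : s ∈ signs n ↔ ∀ k, |s k| = 1 := by
  classical
  rw [signs, Fintype.mem_piFinset]
  refine forall_congr' fun k => ?_
  rw [Finset.mem_insert, Finset.mem_singleton, eq_comm (a := s k) (b := 1), abs_eq zero_le_one,
    eq_comm (a := s k) (b := 1)]

/-- weights -/
noncomputable def wt (T : Finset (Fin n)) (η : ℝ) (s : Fin n → ℝ) : Fin n → ℝ := by
  classical exact fun k => (if k ∈ T then 1 - η else 1) * s k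

theorem wt_dot (T : Finset (Fin n)) (η : ℝ) (s z : Fin n → ℝ) :
    wt T η s ⬝ᵥ z = s ⬝ᵥ z - η * ∑ k ∈ T, s k * z k := by
  classical
  simp only [wt, dotProduct]
  rw [Finset.mul_sum]
  have e : ∑ k ∈ T, η * (s k * z k) = ∑ k, if k ∈ T then η * (s k * z k) else 0 := by
    rw [Finset.sum_ite_mem, Finset.univ_inter]
  rw [e, ← Finset.sum_sub_distrib]
  refine Finset.sum_congr rfl fun k _ => ?_
  by_cases hk : k ∈ T
  · simp only [hk, if_true]; ring
  · simp only [hk, if_false]; ring

theorem ev_pos (T : Finset (Fin n)) (s z : Fin n → ℝ) :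
    ∀ᶠ η in 𝓝[>] (0 : ℝ), (0 < s ⬝ᵥ z → 0 < wt T η s ⬝ᵥ z) ∧ (s ⬝ᵥ z < 0 → wt T η s ⬝ᵥ z < 0) := by
  have hc : Continuous fun η : ℝ => wt T η s ⬝ᵥ z := by
    simp only [wt_dot]; fun_prop
  have h0 : wt T 0 s ⬝ᵥ z = s ⬝ᵥ z := by rw [wt_dot]; ring
  have h1 : Tendsto (fun η : ℝ => wt T η s ⬝ᵥ z) (𝓝[>] 0) (𝓝 (s ⬝ᵥ z)) := by
    rw [← h0]
    exact (hc.tendsto 0).mono_left nhdsWithin_le_nhds
  rw [eventually_and]
  constructor
  · by_cases h : 0 < s ⬝ᵥ z
    · exact (h1.eventually (lt_mem_nhds h)).mono fun η hη _ => hη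
    · exact Eventually.of_forall fun η h' => absurd h' h
  · by_cases h : s ⬝ᵥ z < 0
    · exact (h1.eventually (gt_mem_nhds h)).mono fun η hη _ => hη
    · exact Eventually.of_forall fun η h' => absurd h' h

theorem comb (g h : Fin n → ℝ) (hg : ∀ k, |g k| ≤ 1) (hh : ∀ k, |h k| ≤ 1)
    (hm : ∀ i k, i ≠ k → |g i * h k - g k * h i| ≤ 1) :
    ∃ D : Finset (Fin n → ℝ), D.card ≤ 2 ^ n ∧ ∀ X : Fin n → ℝ, (∀ k, |X k| ≤ 1) →
      ∃ s ∈ D, (∀ k, |X k| = 1 → 0 < X k * s k) ∧
        (|X ⬝ᵥ g| = 1 → 0 < (X ⬝ᵥ g) * (s ⬝ᵥ g)) ∧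
        (|X ⬝ᵥ h| = 1 → 0 < (X ⬝ᵥ h) * (s ⬝ᵥ h)) := by
  classical
  let T : Finset (Fin n) := univ.filter fun l => |g l| = 1 ∧ |h l| = 1
  have hT : ∀ l, l ∈ T ↔ |g l| = 1 ∧ |h l| = 1 := fun l => by simp [T]
  have hev : ∀ᶠ η in 𝓝[>] (0 : ℝ), (∀ s ∈ signs n,
      ((0 < s ⬝ᵥ g → 0 < wt T η s ⬝ᵥ g) ∧ (s ⬝ᵥ g < 0 → wt T η s ⬝ᵥ g < 0)) ∧
      ((0 < s ⬝ᵥ h → 0 < wt T η s ⬝ᵥ h) ∧ (s ⬝ᵥ h < 0 → wt T η s ⬝ᵥ h < 0))) ∧
      0 < η ∧ η < 1 ∧ η * (n + 1) < 2 := by
    refine Eventually.and ?_ (Eventually.and ?_ (Eventually.and ?_ ?_))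
    · rw [Filter.eventually_all_finset]
      intro s _
      exact (ev_pos T s g).and (ev_pos T s h)
    · exact eventually_mem_nhdsWithin
    · exact nhdsWithin_le_nhds (gt_mem_nhds one_pos)
    · have hc : Tendsto (fun η : ℝ => η * ((n : ℝ) + 1)) (𝓝[>] 0) (𝓝 (0 * ((n : ℝ) + 1))) :=
        ((continuous_mul_const _).tendsto 0).mono_left nhdsWithin_le_nhds
      rw [zero_mul] at hc
      exact hc.eventually (gt_mem_nhds two_pos)
  obtain ⟨η, hη, hη0, hη1, hηn⟩ := hev.exists
  refine ⟨(signs n).image (wt T η), Finset.card_image_le.trans card_signs.le, ?_⟩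
  intro X hX
  -- the conclusion for a good sign vector
  have good : ∀ s ∈ signs n, (∀ k, |X k| = 1 → s k = X k) →
      (|X ⬝ᵥ g| = 1 → 0 < (X ⬝ᵥ g) * (wt T η s ⬝ᵥ g)) →
      (|X ⬝ᵥ h| = 1 → 0 < (X ⬝ᵥ h) * (wt T η s ⬝ᵥ h)) →
      ∃ s ∈ (signs n).image (wt T η), (∀ k, |X k| = 1 → 0 < X k * s k) ∧
        (|X ⬝ᵥ g| = 1 → 0 < (X ⬝ᵥ g) * (s ⬝ᵥ g)) ∧
        (|X ⬝ᵥ h| = 1 → 0 < (X ⬝ᵥ h) * (s ⬝ᵥ h)) := by
    intro s hs h1 h2 h3
    refine ⟨wt T η s, Finset.mem_image_of_mem _ hs, fun k hk => ?_, h2, h3⟩
    have h4 : X k * s k = 1 := by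
      rw [h1 k hk, ← abs_mul_abs_self, hk]; norm_num
    have h5 : X k * wt T η s k = (if k ∈ T then 1 - η else 1) * (X k * s k) := by
      simp only [wt]; ring
    rw [h5, h4, mul_one]
    split_ifs
    · linarith
    · exact one_pos
  have tr : ∀ s ∈ signs n, ∀ z : Fin n → ℝ, (z = g ∨ z = h) → 0 < (X ⬝ᵥ z) * (s ⬝ᵥ z) →
      0 < (X ⬝ᵥ z) * (wt T η s ⬝ᵥ z) := by
    intro s hs z hz hpos
    have key : (0 < s ⬝ᵥ z → 0 < wt T η s ⬝ᵥ z) ∧ (s ⬝ᵥ z < 0 → wt T η s ⬝ᵥ z < 0) := by
      rcases hz with rfl | rfl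
      · exact (hη s hs).1
      · exact (hη s hs).2
    rcases pos_and_pos_or_neg_and_neg_of_mul_pos hpos with ⟨a, b⟩ | ⟨a, b⟩
    · exact mul_pos a (key.1 b)
    · exact mul_pos_of_neg_of_neg a (key.2 b)
  have hsq : ∀ c : ℝ, |c| = 1 → c * c = 1 := fun c hc => by
    rw [← abs_mul_abs_self, hc]; norm_num
  -- one active form
  have single : ∀ z : Fin n → ℝ, |X ⬝ᵥ z| = 1 → ∃ s ∈ signs n, (∀ k, |X k| = 1 → s k = X k) ∧
      0 < (X ⬝ᵥ z) * (s ⬝ᵥ z) := by
    intro z hz
    let c := X ⬝ᵥ z
    let s : Fin n → ℝ := fun k => if |X k| = 1 then X k else if 0 ≤ c * z k then 1 else -1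
    have hs : s ∈ signs n := by
      rw [mem_signs]
      intro k
      simp only [s]
      split_ifs with h1 h2
      · exact h1
      · simp
      · simp
    refine ⟨s, hs, fun k hk => by simp [s, hk], ?_⟩
    have h1 : X ⬝ᵥ (c • z) ≤ s ⬝ᵥ (c • z) := by
      refine Finset.sum_le_sum fun k _ => ?_
      simp only [s, Pi.smul_apply, smul_eq_mul]
      split_ifs with h1 h2
      · exact le_rfl
      · have := (abs_le.1 (hX k)).2
        nlinarith
      · push Not at h2
        have := (abs_le.1 (hX k)).1
        nlinarith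
    rw [dotProduct_smul, dotProduct_smul, smul_eq_mul, smul_eq_mul] at h1
    have h2 : c * (X ⬝ᵥ z) = 1 := hsq _ hz
    rw [h2] at h1
    exact lt_of_lt_of_le one_pos h1
  by_cases hag : |X ⬝ᵥ g| = 1
  · by_cases hah : |X ⬝ᵥ h| = 1
    · -- both active
      set cg := X ⬝ᵥ g with hcg
      set ch := X ⬝ᵥ h with hch
      have hcgh : ∀ k, |(cg • g) k| = |g k| := fun k => by
        rw [Pi.smul_apply, smul_eq_mul, abs_mul, hag, one_mul]
      have hchh : ∀ k, |(ch • h) k| = |h k| := fun k => by
        rw [Pi.smul_apply, smul_eq_mul, abs_mul, hah, one_mul]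
      rcases core (cg • g) (ch • h) X (fun k => by rw [hcgh]; exact hg k)
        (fun k => by rw [hchh]; exact hh k) hX
        (by rw [dotProduct_smul, smul_eq_mul]; exact hsq _ hag)
        (by rw [dotProduct_smul, smul_eq_mul]; exact hsq _ hah) with
        ⟨s, hs1, hs2, hs3, hs4⟩ | ⟨s, i, hsi, hs1, hs2, hs3, hs4, hui, hwi⟩
      · rw [dotProduct_smul, smul_eq_mul] at hs3 hs4
        have hs := mem_signs.2 hs1
        exact good s hs hs2 (fun _ => tr s hs g (Or.inl rfl) hs3)
          (fun _ => tr s hs h (Or.inr rfl) hs4)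
      · -- the borderline case
        set u := cg • g with hu
        set w := ch • h with hw
        have hXi : |X i| ≠ 1 := by
          intro h1
          have := hs2 i h1
          rw [hsi] at this
          rw [← this] at h1
          simp at h1
        have hwl : ∀ l ∈ T, w l = -u l := by
          intro l hl
          obtain ⟨h1, h2⟩ := (hT l).1 hl
          by_cases hli : l = i
          · rw [hli]; exact hwi
          have h3 : |u i * w l - u l * w i| ≤ 1 := by
            have e : u i * w l - u l * w i = (cg * ch) * (g i * h l - g l * h i) := by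
              simp only [hu, hw, Pi.smul_apply, smul_eq_mul]; ring
            rw [e, abs_mul, abs_mul, hag, hah, one_mul, one_mul]
            exact hm i l (Ne.symm hli)
          have h4 : u i * w l - u l * w i = u i * (w l + u l) := by rw [hwi]; ring
          rw [h4, abs_mul, hui, one_mul] at h3
          have h5 : |u l| = 1 := by rw [hcgh]; exact h1
          have h6 : |w l| = 1 := by rw [hchh]; exact h2
          have h7 := abs_le.1 h3
          rcases (abs_eq zero_le_one).1 h5 with h5 | h5 <;>
            rcases (abs_eq zero_le_one).1 h6 with h6 | h6 <;> rw [h5, h6] at h7 ⊢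
          · exfalso; linarith [h7.2]
          · norm_num
          · exfalso; linarith [h7.1]
        have hiT : i ∈ T := by
          rw [hT]
          refine ⟨by rw [← hcgh]; exact hui, ?_⟩
          rw [← hchh, hwi, abs_neg]; exact hui
        have hup : ∀ (c : ℝ) (z : Fin n → ℝ), (Function.update s i c) ⬝ᵥ z =
            s ⬝ᵥ z + c * z i := by
          intro c z
          have : Function.update s i c = s + Pi.single i c := by
            funext k
            by_cases hk : k = i
            · subst hk; simp [hsi]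
            · simp [hk]
          rw [this, add_dotProduct, single_dotProduct]
        have hupT : ∀ (c : ℝ) (z : Fin n → ℝ), ∑ k ∈ T, (Function.update s i c) k * z k =
            ∑ k ∈ T, s k * z k + c * z i := by
          intro c z
          have : ∀ k, (Function.update s i c) k * z k = s k * z k +
              (if k = i then c * z i else 0) := by
            intro k
            by_cases hk : k = i
            · subst hk; simp [hsi]
            · simp [hk]
          rw [Finset.sum_congr rfl fun k _ => this k, Finset.sum_add_distrib,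
            Finset.sum_ite_eq' T i, if_pos hiT]
        have hmem : ∀ c : ℝ, |c| = 1 → Function.update s i c ∈ signs n ∧
            ∀ k, |X k| = 1 → Function.update s i c k = X k := by
          intro c hc
          constructor
          · rw [mem_signs]
            intro k
            by_cases hk : k = i
            · subst hk; simpa using hc
            · rw [Function.update_of_ne hk]; exact hs1 k hk
          · intro k hk
            have hki : k ≠ i := by rintro rfl; exact hXi hk
            rw [Function.update_of_ne hki]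
            exact hs2 k hk
        have huu : u i * u i = 1 := hsq _ hui
        set S := ∑ k ∈ T, s k * u k with hS
        have hSw : ∑ k ∈ T, s k * w k = -S := by
          rw [hS, ← Finset.sum_neg_distrib]
          refine Finset.sum_congr rfl fun k hk => ?_
          rw [hwl k hk]; ring
        have hSb : |S| ≤ n := by
          calc |S| ≤ ∑ k ∈ T, |s k * u k| := Finset.abs_sum_le_sum_abs _ _
            _ ≤ ∑ k ∈ T, 1 := Finset.sum_le_sum fun k _ => by
                rw [abs_mul, hcgh]
                have h1 : |s k| ≤ 1 := by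
                  by_cases hk : k = i
                  · rw [hk, hsi]; simp
                  · exact (hs1 k hk).le
                exact mul_le_one₀ h1 (abs_nonneg _) (hg k)
            _ = T.card := by simp
            _ ≤ n := by
                have := Finset.card_le_univ T
                rw [Fintype.card_fin] at this
                exact_mod_cast this
        have hSb' := abs_le.1 hSb
        have e1 : (cg) * (wt T η (Function.update s i (u i)) ⬝ᵥ g) = 2 - η * (S + 1) := by
          rw [← smul_eq_mul, ← dotProduct_smul, ← hu, wt_dot, hup, hupT, hs3, huu]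
          ring
        have e2 : (ch) * (wt T η (Function.update s i (u i)) ⬝ᵥ h) = η * (S + 1) := by
          rw [← smul_eq_mul, ← dotProduct_smul, ← hw, wt_dot, hup, hupT, hs4, hSw, hwi]
          have : u i * -u i = -1 := by rw [mul_neg, huu]
          rw [this]; ring
        have e3 : (cg) * (wt T η (Function.update s i (-u i)) ⬝ᵥ g) = -(η * (S - 1)) := by
          rw [← smul_eq_mul, ← dotProduct_smul, ← hu, wt_dot, hup, hupT, hs3]
          have : -u i * u i = -1 := by rw [neg_mul, huu]
          rw [this]; ring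
        have e4 : (ch) * (wt T η (Function.update s i (-u i)) ⬝ᵥ h) = 2 + η * (S - 1) := by
          rw [← smul_eq_mul, ← dotProduct_smul, ← hw, wt_dot, hup, hupT, hs4, hSw, hwi]
          have : -u i * -u i = 1 := by rw [neg_mul_neg, huu]
          rw [this]; ring
        by_cases hSpos : 0 < S + 1
        · obtain ⟨m1, m2⟩ := hmem (u i) hui
          refine good _ m1 m2 (fun _ => ?_) (fun _ => ?_)
          · rw [e1]
            have : η * (S + 1) ≤ η * (n + 1) := mul_le_mul_of_nonneg_left (by linarith) hη0.le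
            linarith
          · rw [e2]
            exact mul_pos hη0 hSpos
        · push Not at hSpos
          obtain ⟨m1, m2⟩ := hmem (-u i) (by rw [abs_neg]; exact hui)
          refine good _ m1 m2 (fun _ => ?_) (fun _ => ?_)
          · rw [e3]
            have : 0 < η * (1 - S) := mul_pos hη0 (by linarith)
            linarith
          · rw [e4]
            have : η * (1 - S) ≤ η * (n + 1) := mul_le_mul_of_nonneg_left (by linarith) hη0.le
            linarith
    · obtain ⟨s, hs, h1, h2⟩ := single g hag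
      exact good s hs h1 (fun _ => tr s hs g (Or.inl rfl) h2) (fun h3 => absurd h3 hah)
  · by_cases hah : |X ⬝ᵥ h| = 1
    · obtain ⟨s, hs, h1, h2⟩ := single h hah
      exact good s hs h1 (fun h3 => absurd h3 hag) (fun _ => tr s hs h (Or.inr rfl) h2)
    · let s : Fin n → ℝ := fun k => if |X k| = 1 then X k else 1
      have hs : s ∈ signs n := by
        rw [mem_signs]
        intro k
        simp only [s]
        split_ifs with h1
        · exact h1
        · simp
      exact good s hs (fun k hk => by simp [s, hk]) (fun h3 => absurd h3 hag)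
        (fun h3 => absurd h3 hah)

end Pool.Agent.Helper442_Trunc
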