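import Mathlib

set_option autoImplicit false

/-!
# Sign vectors and two linear forms

Auxiliary file for `MP_eba1ef_gt.SymmetricFewFacets`.
-/

namespace Pool.Agent.Helper442_Trunc

open Finset Matrix

variable {n : ℕ}

/-- the fractional coordinates -/
noncomputable def frac (v : Fin n → ℝ) : Finset (Fin n) := by
  classical exact univ.filter fun k => |v k| ≠ 1

theorem mem_frac {v : Fin n → ℝ} {k : Fin n} : k ∈ frac v ↔ |v k| ≠ 1 := by
  classical simp [frac]

/-- a nonzero vector with two entries, orthogonal to `u` and nonnegative on `w` -/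
theorem exists_dir (u w : Fin n → ℝ) {i k : Fin n} (hik : i ≠ k) :
    ∃ d : Fin n → ℝ, d ≠ 0 ∧ (∀ l, l ≠ i → l ≠ k → d l = 0) ∧ 0 ≤ d ⬝ᵥ u ∧ 0 ≤ d ⬝ᵥ w := by
  have hdot : ∀ (α β : ℝ) (z : Fin n → ℝ),
      (Pi.single i α + Pi.single k β : Fin n → ℝ) ⬝ᵥ z = α * z i + β * z k := by
    intro α β z
    rw [add_dotProduct, single_dotProduct, single_dotProduct]
  have hzero : ∀ (α β : ℝ) (l : Fin n), l ≠ i → l ≠ k →
      (Pi.single i α + Pi.single k β : Fin n → ℝ) l = 0 := by
    intro α β l h1 h2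
    rw [Pi.add_apply, Pi.single_eq_of_ne h1, Pi.single_eq_of_ne h2, add_zero]
  have hne : ∀ (α β : ℝ), (α ≠ 0 ∨ β ≠ 0) → (Pi.single i α + Pi.single k β : Fin n → ℝ) ≠ 0 := by
    intro α β h h0
    have h1 := congrFun h0 i
    have h2 := congrFun h0 k
    rw [Pi.add_apply, Pi.single_eq_same, Pi.single_eq_of_ne hik, add_zero] at h1
    rw [Pi.add_apply, Pi.single_eq_same, Pi.single_eq_of_ne hik.symm, zero_add] at h2
    simp only [Pi.zero_apply] at h1 h2
    tauto
  by_cases hu : u i = 0 ∧ u k = 0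
  · by_cases hw : w i = 0 ∧ w k = 0
    · refine ⟨_, hne 1 0 (Or.inl one_ne_zero), hzero 1 0, ?_, ?_⟩
      · rw [hdot, hu.1, hu.2]; simp
      · rw [hdot, hw.1, hw.2]; simp
    · refine ⟨_, hne (w i) (w k) (by tauto), hzero _ _, ?_, ?_⟩
      · rw [hdot, hu.1, hu.2]; simp
      · rw [hdot]
        nlinarith [mul_self_nonneg (w i), mul_self_nonneg (w k)]
  · rcases le_total 0 (u i * w k - u k * w i) with h | h
    · refine ⟨_, hne (-u k) (u i) (by
        by_contra hcon
        push Not at hcon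
        exact hu ⟨hcon.2, neg_eq_zero.1 hcon.1⟩), hzero _ _, ?_, ?_⟩
      · rw [hdot]; linarith
      · rw [hdot]; linarith
    · refine ⟨_, hne (u k) (-u i) (by
        by_contra hcon
        push Not at hcon
        exact hu ⟨neg_eq_zero.1 hcon.2, hcon.1⟩), hzero _ _, ?_, ?_⟩
      · rw [hdot]; linarith
      · rw [hdot]; linarith

/-- moving along `d` until a fractional coordinate becomes `± 1` -/
theorem move (v d : Fin n → ℝ) (hv : ∀ k, |v k| ≤ 1) (hd : d ≠ 0)
    (hds : ∀ l, l ∉ frac v → d l = 0) :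
    ∃ τ : ℝ, 0 ≤ τ ∧ (∀ k, |v k + τ * d k| ≤ 1) ∧
      ((frac (fun k => v k + τ * d k)).card < (frac v).card) := by
  classical
  -- the possible step lengths
  let S : Finset (Fin n) := univ.filter fun k => d k ≠ 0
  have hS : S.Nonempty := by
    by_contra h
    rw [Finset.not_nonempty_iff_eq_empty] at h
    apply hd
    funext k
    by_contra hk
    have : k ∈ S := by simp [S]; exact hk
    rw [h] at this
    simp at this
  let q : Fin n → ℝ := fun k => (1 - (SignType.sign (d k) : ℝ) * v k) / |d k|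
  obtain ⟨i, hiS, hmin⟩ := S.exists_min_image q hS
  have hdi : d i ≠ 0 := by simpa [S] using hiS
  have hsg : ∀ k, (SignType.sign (d k) : ℝ) * |d k| = d k := fun k => sign_mul_abs (d k)
  have hq0 : ∀ k, 0 ≤ q k := by
    intro k
    apply div_nonneg _ (abs_nonneg _)
    have h1 : (SignType.sign (d k) : ℝ) * v k ≤ |v k| := by
      rcases lt_trichotomy (d k) 0 with h | h | h
      · rw [sign_neg h]; simp; exact neg_abs_le (v k) |> fun h => by linarith [neg_le_abs (v k)]
      · rw [h]; simp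
      · rw [sign_pos h]; simp; exact le_abs_self _
    linarith [hv k]
  have hbound : ∀ k, |v k + q i * d k| ≤ 1 := by
    intro k
    by_cases hk : d k = 0
    · rw [hk, mul_zero, add_zero]; exact hv k
    · have hqk : q i ≤ q k := hmin k (by simp [S, hk])
      have hpos : 0 < |d k| := abs_pos.2 hk
      have h1 : q i * |d k| ≤ 1 - (SignType.sign (d k) : ℝ) * v k := by
        calc q i * |d k| ≤ q k * |d k| := mul_le_mul_of_nonneg_right hqk hpos.le
          _ = _ := div_mul_cancel₀ _ hpos.ne'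
      have h2 := abs_le.1 (hv k)
      have h3 : 0 ≤ q i * |d k| := mul_nonneg (hq0 i) hpos.le
      rw [abs_le]
      rcases lt_or_gt_of_ne hk with h | h
      · rw [sign_neg h, abs_of_neg h] at h1
        rw [abs_of_neg h] at h3
        simp only [SignType.coe_neg_one] at h1
        constructor <;> linarith
      · rw [sign_pos h, abs_of_pos h] at h1
        rw [abs_of_pos h] at h3
        simp only [SignType.coe_one] at h1
        constructor <;> linarith
  refine ⟨q i, hq0 i, hbound, ?_⟩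
  apply Finset.card_lt_card
  rw [Finset.ssubset_iff_of_subset]
  · refine ⟨i, ?_, ?_⟩
    · by_contra h
      exact hdi (hds i h)
    · rw [mem_frac, not_not]
      have hpos : 0 < |d i| := abs_pos.2 hdi
      have h1 : q i * |d i| = 1 - (SignType.sign (d i) : ℝ) * v i := div_mul_cancel₀ _ hpos.ne'
      rcases lt_or_gt_of_ne hdi with h | h
      · rw [sign_neg h, abs_of_neg h] at h1
        simp only [SignType.coe_neg_one] at h1
        have : v i + q i * d i = -1 := by linarith
        rw [this]; simp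
      · rw [sign_pos h, abs_of_pos h] at h1
        simp only [SignType.coe_one] at h1
        have : v i + q i * d i = 1 := by linarith
        rw [this]; simp
  · intro k hk
    rw [mem_frac] at hk ⊢
    intro h
    apply hk
    have : k ∉ frac v := by rw [mem_frac, not_not]; exact h
    rw [hds k this, mul_zero, add_zero]
    exact h

/-- rounding to at most one fractional coordinate -/
theorem round_one (u w : Fin n → ℝ) (m : ℕ) : ∀ v : Fin n → ℝ, (frac v).card = m →
    (∀ k, |v k| ≤ 1) → 1 ≤ v ⬝ᵥ u → 1 ≤ v ⬝ᵥ w →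
    ∃ v' : Fin n → ℝ, (frac v').card ≤ 1 ∧ (∀ k, |v' k| ≤ 1) ∧ (∀ k, |v k| = 1 → v' k = v k) ∧
      1 ≤ v' ⬝ᵥ u ∧ 1 ≤ v' ⬝ᵥ w := by
  induction m using Nat.strong_induction_on with
  | _ m ih =>
  intro v hm hv hu hw
  by_cases h1 : (frac v).card ≤ 1
  · exact ⟨v, h1, hv, fun k _ => rfl, hu, hw⟩
  · push Not at h1
    obtain ⟨i, hi, k, hk, hik⟩ := Finset.one_lt_card.1 h1
    obtain ⟨d, hd0, hdl, hdu, hdw⟩ := exists_dir u w hik
    obtain ⟨τ, hτ, hb, hc⟩ := move v d hv hd0 (fun l hl => hdl l (by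
      rintro rfl; exact hl hi) (by rintro rfl; exact hl hk))
    have e : ∀ z : Fin n → ℝ, (fun k => v k + τ * d k) ⬝ᵥ z = v ⬝ᵥ z + τ * (d ⬝ᵥ z) := by
      intro z
      have : (fun k => v k + τ * d k) = v + τ • d := by
        funext k; simp
      rw [this, add_dotProduct, smul_dotProduct, smul_eq_mul]
    obtain ⟨v', c1, c2, c3, c4, c5⟩ := ih _ (by rw [← hm]; exact hc) (fun k => v k + τ * d k) rfl hb
      (by rw [e]; have := mul_nonneg hτ hdu; linarith)
      (by rw [e]; have := mul_nonneg hτ hdw; linarith)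
    refine ⟨v', c1, c2, fun l hl => ?_, c4, c5⟩
    have hlf : l ∉ frac v := by rw [mem_frac, not_not]; exact hl
    have hdl0 : d l = 0 := hdl l (by rintro rfl; exact hlf hi) (by rintro rfl; exact hlf hk)
    have h2 := c3 l (by simp only [hdl0, mul_zero, add_zero]; exact hl)
    rw [h2]
    simp only [hdl0, mul_zero, add_zero]

/-- **core lemma** -/
theorem core (u w x : Fin n → ℝ) (hu : ∀ k, |u k| ≤ 1) (hw : ∀ k, |w k| ≤ 1)
    (hx : ∀ k, |x k| ≤ 1) (hxu : x ⬝ᵥ u = 1) (hxw : x ⬝ᵥ w = 1) :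
    (∃ s : Fin n → ℝ, (∀ k, |s k| = 1) ∧ (∀ k, |x k| = 1 → s k = x k) ∧ 0 < s ⬝ᵥ u ∧
      0 < s ⬝ᵥ w) ∨
    ∃ (s : Fin n → ℝ) (i : Fin n), s i = 0 ∧ (∀ k, k ≠ i → |s k| = 1) ∧
      (∀ k, |x k| = 1 → s k = x k) ∧ s ⬝ᵥ u = 1 ∧ s ⬝ᵥ w = 1 ∧ |u i| = 1 ∧ w i = -u i := by
  classical
  obtain ⟨v, h1, h2, h3, h4, h5⟩ := round_one u w _ x rfl hx hxu.ge hxw.ge
  by_cases h0 : (frac v).card = 0
  · left
    rw [Finset.card_eq_zero] at h0
    refine ⟨v, fun k => ?_, h3, by linarith, by linarith⟩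
    by_contra h
    have : k ∈ frac v := mem_frac.2 h
    rw [h0] at this
    simp at this
  · have h6 : (frac v).card = 1 := by omega
    obtain ⟨i, hi⟩ := Finset.card_eq_one.1 h6
    have hvi : |v i| ≠ 1 := by
      rw [← mem_frac, hi]; simp
    have hvk : ∀ k, k ≠ i → |v k| = 1 := by
      intro k hk
      by_contra h
      have : k ∈ frac v := mem_frac.2 h
      rw [hi] at this
      exact hk (by simpa using this)
    have hvi1 : |v i| < 1 := lt_of_le_of_ne (h2 i) hvi
    obtain ⟨ha, hb⟩ := abs_lt.1 hvi1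
    have hxi : |x i| ≠ 1 := fun h => hvi (by rw [h3 i h]; exact h)
    have hup : ∀ (c : ℝ) (z : Fin n → ℝ), (Function.update v i c) ⬝ᵥ z =
        v ⬝ᵥ z + (c - v i) * z i := by
      intro c z
      have : Function.update v i c = v + Pi.single i (c - v i) := by
        funext k
        by_cases hk : k = i
        · subst hk; simp
        · simp [hk]
      rw [this, add_dotProduct, single_dotProduct]
    have hsgn : ∀ c : ℝ, |c| = 1 → (∀ k, |Function.update v i c k| = 1) ∧
        (∀ k, |x k| = 1 → Function.update v i c k = x k) := by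
      intro c hc
      constructor
      · intro k
        by_cases hk : k = i
        · subst hk; simpa using hc
        · rw [Function.update_of_ne hk]; exact hvk k hk
      · intro k hk
        have hki : k ≠ i := by rintro rfl; exact hxi hk
        rw [Function.update_of_ne hki]
        exact h3 k hk
    by_cases hp : 0 < (Function.update v i 1) ⬝ᵥ u ∧ 0 < (Function.update v i 1) ⬝ᵥ w
    · exact Or.inl ⟨_, (hsgn 1 (by simp)).1, (hsgn 1 (by simp)).2, hp.1, hp.2⟩
    by_cases hm : 0 < (Function.update v i (-1)) ⬝ᵥ u ∧ 0 < (Function.update v i (-1)) ⬝ᵥ w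
    · exact Or.inl ⟨_, (hsgn (-1) (by simp)).1, (hsgn (-1) (by simp)).2, hm.1, hm.2⟩
    right
    rw [hup, hup] at hp hm
    obtain ⟨hu1, hu2⟩ := abs_le.1 (hu i)
    obtain ⟨hw1, hw2⟩ := abs_le.1 (hw i)
    -- which of the two forms is bad
    have hp' : v ⬝ᵥ u + (1 - v i) * u i ≤ 0 ∨ v ⬝ᵥ w + (1 - v i) * w i ≤ 0 := by
      by_contra hcon
      push Not at hcon
      exact hp hcon
    have hm' : v ⬝ᵥ u + (-1 - v i) * u i ≤ 0 ∨ v ⬝ᵥ w + (-1 - v i) * w i ≤ 0 := by
      by_contra hcon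
      push Not at hcon
      exact hm hcon
    have keyp : ∀ a b : ℝ, 1 ≤ a → -1 ≤ b → b ≤ 1 → a + (1 - v i) * b ≤ 0 →
        b < 0 ∧ v i ≤ 0 ∧ (v i = 0 → a = 1 ∧ b = -1) := by
      intro a b h1 h2 h3 h4
      have hb0 : b < 0 := by
        by_contra hcon
        push Not at hcon
        have := mul_nonneg (by linarith : (0:ℝ) ≤ 1 - v i) hcon
        linarith
      refine ⟨hb0, by nlinarith, fun h0 => ?_⟩
      rw [h0] at h4
      constructor <;> linarith
    have keym : ∀ a b : ℝ, 1 ≤ a → -1 ≤ b → b ≤ 1 → a + (-1 - v i) * b ≤ 0 →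
        0 < b ∧ 0 ≤ v i ∧ (v i = 0 → a = 1 ∧ b = 1) := by
      intro a b h1 h2 h3 h4
      have hb0 : 0 < b := by
        by_contra hcon
        push Not at hcon
        nlinarith
      refine ⟨hb0, by nlinarith, fun h0 => ?_⟩
      rw [h0] at h4
      constructor <;> linarith
    rcases hp' with hp' | hp' <;> rcases hm' with hm' | hm'
    · have e1 := keyp _ _ h4 hu1 hu2 hp'
      have e2 := keym _ _ h4 hu1 hu2 hm'
      linarith [e1.1, e2.1]
    · have e1 := keyp _ _ h4 hu1 hu2 hp'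
      have e2 := keym _ _ h5 hw1 hw2 hm'
      have h0 : v i = 0 := le_antisymm e1.2.1 e2.2.1
      obtain ⟨f1, f2⟩ := e1.2.2 h0
      obtain ⟨f3, f4⟩ := e2.2.2 h0
      refine ⟨v, i, h0, hvk, h3, f1, f3, ?_, ?_⟩
      · rw [f2]; simp
      · rw [f2, f4]; simp
    · have e1 := keyp _ _ h5 hw1 hw2 hp'
      have e2 := keym _ _ h4 hu1 hu2 hm'
      have h0 : v i = 0 := le_antisymm e1.2.1 e2.2.1
      obtain ⟨f1, f2⟩ := e1.2.2 h0
      obtain ⟨f3, f4⟩ := e2.2.2 h0
      refine ⟨v, i, h0, hvk, h3, f3, f1, ?_, ?_⟩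
      · rw [f4]; simp
      · rw [f2, f4]
    · have e1 := keyp _ _ h5 hw1 hw2 hp'
      have e2 := keym _ _ h5 hw1 hw2 hm'
      linarith [e1.1, e2.1]

end Pool.Agent.Helper442_Trunc
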