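import Pool.Agent.Helper442_Trunc.Basic
import Pool.Agent.Helper442_Trunc.Comb

set_option autoImplicit false

/-!
# Intersections of `n + 2` symmetric slabs

Auxiliary file for `MP_eba1ef_gt.SymmetricFewFacets`.
-/

namespace Pool.Agent.Helper442_Trunc

open Filter Topology Set Module

/-- determinants with one entry replaced -/
theorem det_one {n : ℕ} {V : Type*} [AddCommGroup V] [Module ℝ V] (e : Basis (Fin n) ℝ V)
    {v : Fin n → V} (hli : LinearIndependent ℝ v) (hsp : ⊤ ≤ Submodule.span ℝ (range v))
    (i : Fin n) (g : V) :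
    e.det (Function.update v i g) = (Basis.mk hli hsp).coord i g * e.det v := by
  have h := congrArg (fun L : V →ₗ[ℝ] ℝ => L g) (e.det_smul_mk_coord_eq_det_update hli hsp i)
  simp only [LinearMap.smul_apply, smul_eq_mul, MultilinearMap.toLinearMap_apply] at h
  rw [mul_comm] at h
  exact h.symm

/-- determinants with two entries replaced -/
theorem det_two {n : ℕ} {V : Type*} [AddCommGroup V] [Module ℝ V] (e : Basis (Fin n) ℝ V)
    {v : Fin n → V} (hli : LinearIndependent ℝ v) (hsp : ⊤ ≤ Submodule.span ℝ (range v))
    (i k : Fin n) (hik : i ≠ k) (g h : V) :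
    e.det (Function.update (Function.update v i g) k h) =
      ((Basis.mk hli hsp).coord i g * (Basis.mk hli hsp).coord k h -
        (Basis.mk hli hsp).coord k g * (Basis.mk hli hsp).coord i h) * e.det v := by
  classical
  set b := Basis.mk hli hsp with hb
  have hbv : ∀ j, b j = v j := fun j => by rw [hb, Basis.coe_mk]
  have hco : ∀ j l, b.coord j (v l) = if l = j then 1 else 0 := by
    intro j l
    rw [← hbv, Basis.coord_apply, Basis.repr_self, Finsupp.single_apply]
  let L1 : V →ₗ[ℝ] ℝ := e.det.toMultilinearMap.toLinearMap (Function.update v i g) k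
  let L2 : V →ₗ[ℝ] ℝ := (b.coord i g * e.det v) • b.coord k - (b.coord k g * e.det v) • b.coord i
  have hL : L1 = L2 := by
    refine b.ext fun j => ?_
    rw [hbv]
    simp only [L1, L2, MultilinearMap.toLinearMap_apply, LinearMap.sub_apply, LinearMap.smul_apply,
      smul_eq_mul, hco]
    change e.det (Function.update (Function.update v i g) k (v j)) = _
    by_cases hjk : j = k
    · subst hjk
      have h1 : Function.update (Function.update v i g) j (v j) = Function.update v i g := by
        funext l
        by_cases hl : l = j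
        · subst hl
          rw [Function.update_self, Function.update_of_ne (Ne.symm hik)]
        · rw [Function.update_of_ne hl]
      rw [h1, det_one e hli hsp, if_pos rfl, if_neg (Ne.symm hik)]
      ring
    · by_cases hji : j = i
      · subst hji
        set w := Function.update (Function.update v j g) k (v j) with hw
        have h1 : w ∘ Equiv.swap j k = Function.update v k g := by
          funext l
          simp only [Function.comp_apply]
          by_cases hl : l = k
          · subst hl
            rw [Equiv.swap_apply_right, Function.update_self, hw, Function.update_of_ne hik,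
              Function.update_self]
          · by_cases hl2 : l = j
            · subst hl2
              rw [Equiv.swap_apply_left, Function.update_of_ne hl, hw, Function.update_self]
            · rw [Equiv.swap_apply_of_ne_of_ne hl2 hl, Function.update_of_ne hl, hw,
                Function.update_of_ne hl, Function.update_of_ne hl2]
        have h2 := e.det.map_swap w hik
        rw [h1, det_one e hli hsp] at h2
        rw [if_neg hjk, if_pos rfl]
        have h3 : e.det w = -(b.coord k g * e.det v) := by linarith
        rw [h3]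
        ring
      · have h1 : e.det (Function.update (Function.update v i g) k (v j)) = 0 := by
          refine e.det.map_eq_zero_of_eq _ (i := k) (j := j) ?_ (Ne.symm hjk)
          rw [Function.update_self, Function.update_of_ne hjk, Function.update_of_ne hji]
        rw [h1, if_neg hjk, if_neg hji]
        ring
  have h1 := congrArg (fun L : V →ₗ[ℝ] ℝ => L h) hL
  simp only [L1, L2, MultilinearMap.toLinearMap_apply, LinearMap.sub_apply, LinearMap.smul_apply,
    smul_eq_mul] at h1
  change e.det (Function.update (Function.update v i g) k h) = _ at h1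
  rw [h1]
  ring

theorem ev_abs {z r : ℝ} (hz : |z| ≤ 1) (h : |z| = 1 → 0 < z * r) :
    ∀ᶠ ε in 𝓝[>] (0 : ℝ), |z - ε * r| < 1 := by
  have hc : Continuous fun ε : ℝ => |z - ε * r| := by fun_prop
  rcases hz.lt_or_eq with h1 | h1
  · have ht := hc.tendsto 0
    simp only [zero_mul, sub_zero] at ht
    exact (ht.mono_left nhdsWithin_le_nhds).eventually (gt_mem_nhds h1)
  · have h2 := h h1
    have hc2 : Continuous fun ε : ℝ => ε * r := by fun_prop
    have ht := hc2.tendsto 0
    simp only [zero_mul] at ht
    have ht' := ht.mono_left (nhdsWithin_le_nhds (s := Ioi (0 : ℝ)))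
    have e1 : ∀ᶠ ε in 𝓝[>] (0 : ℝ), ε * r < 2 := ht'.eventually (gt_mem_nhds two_pos)
    have e2 : ∀ᶠ ε in 𝓝[>] (0 : ℝ), -2 < ε * r := ht'.eventually (lt_mem_nhds (by norm_num))
    have e3 : ∀ᶠ ε in 𝓝[>] (0 : ℝ), 0 < ε := eventually_mem_nhdsWithin
    filter_upwards [e1, e2, e3] with ε h3 h4 h5
    rcases (abs_eq zero_le_one).1 h1 with h6 | h6
    · rw [h6, one_mul] at h2
      have := mul_pos h5 h2
      rw [h6, abs_lt]
      constructor <;> linarith
    · rw [h6] at h2
      have h7 : 0 < ε * (-1 * r) := mul_pos h5 h2
      rw [h6, abs_lt]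
      constructor <;> linarith

/-- **Main theorem** for `n + 2` symmetric slabs -/
theorem slabs {V : Type*} [NormedAddCommGroup V] [InnerProductSpace ℝ V] [FiniteDimensional ℝ V]
    (n : ℕ) (hfin : finrank ℝ V = n) (f : Fin (n + 2) → V) (p : V)
    (K : Set V) (hK : K = {x | ∀ a, |inner ℝ (f a) (x - p)| ≤ 1})
    (hKb : Bornology.IsBounded K) :
    ∃ T : Finset V, T.card ≤ 2 ^ n ∧ K ⊆ ⋃ t ∈ T, (fun x => t + x) '' interior K := by
  classical
  -- convexity and compactness
  have hKconv : Convex ℝ K := by
    rw [hK]
    intro x hx y hy s t hs ht hst a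
    have e : s • x + t • y - p = s • (x - p) + t • (y - p) := by
      have : p = (s + t) • p := by rw [hst, one_smul]
      nth_rewrite 1 [this]
      module
    rw [e, inner_add_right, inner_smul_right, inner_smul_right]
    have h1 := abs_le.1 (hx a)
    have h2 := abs_le.1 (hy a)
    rw [abs_le]
    constructor <;> nlinarith
  have hKclosed : IsClosed K := by
    have : K = ⋂ a, {x | |inner ℝ (f a) (x - p)| ≤ 1} := by rw [hK]; ext x; simp
    rw [this]
    exact isClosed_iInter fun a => isClosed_le (by fun_prop) continuous_const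
  have hKcomp : IsCompact K := Metric.isCompact_of_isClosed_isBounded hKclosed hKb
  -- the functionals span
  have hspan : Submodule.span ℝ (range f) = ⊤ := by
    by_contra hne
    have h1 : (Submodule.span ℝ (range f))ᗮ ≠ ⊥ := fun h => hne (by
      rw [Submodule.orthogonal_eq_bot_iff] at h; exact h)
    obtain ⟨y, hy, hy0⟩ := Submodule.exists_mem_ne_zero_of_ne_bot h1
    have h2 : ∀ a, inner ℝ (f a) y = 0 := fun a =>
      (Submodule.mem_orthogonal _ _).1 hy _ (Submodule.subset_span ⟨a, rfl⟩)
    obtain ⟨R, hR⟩ := hKb.exists_norm_le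
    have h3 : ∀ t : ℝ, ‖p + t • y‖ ≤ R := fun t => hR _ (by
      rw [hK]
      intro a
      rw [add_sub_cancel_left, inner_smul_right, h2, mul_zero, abs_zero]
      exact zero_le_one)
    have hyn : 0 < ‖y‖ := norm_pos_iff.2 hy0
    have h4 := h3 ((R + ‖p‖ + 1) / ‖y‖)
    have hR0 : 0 ≤ R := (norm_nonneg _).trans h4
    have h5 : ‖((R + ‖p‖ + 1) / ‖y‖) • y‖ = R + ‖p‖ + 1 := by
      rw [norm_smul, Real.norm_of_nonneg (by positivity), div_mul_cancel₀ _ hyn.ne']
    have h6 : ‖((R + ‖p‖ + 1) / ‖y‖) • y‖ ≤ ‖p + ((R + ‖p‖ + 1) / ‖y‖) • y‖ + ‖p‖ := by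
      have := norm_sub_le (p + ((R + ‖p‖ + 1) / ‖y‖) • y) p
      rwa [add_sub_cancel_left] at this
    linarith
  -- the system of maximal determinant
  let e : Basis (Fin n) ℝ V := (stdOrthonormalBasis ℝ V).toBasis.reindex (finCongr hfin)
  obtain ⟨σ, hσ⟩ := Finite.exists_max fun σ : Fin n → Fin (n + 2) => |e.det (f ∘ σ)|
  have hdet0 : e.det (f ∘ σ) ≠ 0 := by
    obtain ⟨w, hw1, hw2, hw3⟩ := Submodule.exists_fun_fin_finrank_span_eq ℝ (range f)
    replace hw2 := hw2.trans hspan
    have hfr : finrank ℝ (Submodule.span ℝ (range f)) = n := by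
      rw [hspan, finrank_top, hfin]
    let c : Fin n ≃ Fin (finrank ℝ (Submodule.span ℝ (range f))) := finCongr hfr.symm
    choose τ hτ using fun k : Fin n => hw1 (c k)
    have h1 : f ∘ τ = w ∘ c := funext fun k => hτ k
    have h2 : IsUnit (e.det (f ∘ τ)) := by
      rw [h1, ← Module.Basis.is_basis_iff_det]
      refine ⟨hw3.comp _ c.injective, ?_⟩
      rw [c.surjective.range_comp, hw2]
    have h3 := hσ τ
    intro h0
    rw [h0, abs_zero] at h3
    exact h2.ne_zero (abs_eq_zero.1 (le_antisymm h3 (abs_nonneg _)))
  obtain ⟨hli, hsp'⟩ := (Module.Basis.is_basis_iff_det e).2 (isUnit_iff_ne_zero.2 hdet0)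
  have hsp : ⊤ ≤ Submodule.span ℝ (range (f ∘ σ)) := hsp'.ge
  set b := Basis.mk hli hsp with hb
  have hbv : ∀ j, b j = f (σ j) := fun j => by rw [hb, Basis.coe_mk]; rfl
  have hpos : 0 < |e.det (f ∘ σ)| := abs_pos.2 hdet0
  have hc1 : ∀ a k, |b.coord k (f a)| ≤ 1 := by
    intro a k
    have h1 := hσ (Function.update σ k a)
    have h2 : f ∘ Function.update σ k a = Function.update (f ∘ σ) k (f a) := by
      funext l
      by_cases hl : l = k
      · subst hl; simp
      · simp [hl]
    rw [h2, det_one e hli hsp, abs_mul] at h1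
    by_contra hcon
    push Not at hcon
    have := mul_lt_mul_of_pos_right hcon hpos
    linarith
  have hc2 : ∀ a a' i k, i ≠ k →
      |b.coord i (f a) * b.coord k (f a') - b.coord k (f a) * b.coord i (f a')| ≤ 1 := by
    intro a a' i k hik
    have h1 := hσ (Function.update (Function.update σ i a) k a')
    have h2 : f ∘ Function.update (Function.update σ i a) k a' =
        Function.update (Function.update (f ∘ σ) i (f a)) k (f a') := by
      funext l
      by_cases hl : l = k
      · subst hl; simp
      · by_cases hl2 : l = i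
        · subst hl2; simp [hl]
        · simp [hl, hl2]
    rw [h2, det_two e hli hsp i k hik, abs_mul] at h1
    by_contra hcon
    push Not at hcon
    have := mul_lt_mul_of_pos_right hcon hpos
    linarith
  -- the two other functionals
  have hσinj : Function.Injective σ := fun i j hij => hli.injective (by simp [hij])
  obtain ⟨a1, a2, ha⟩ : ∃ a1 a2, ∀ a, (∃ k, σ k = a) ∨ a = a1 ∨ a = a2 := by
    have h1 : (Finset.univ \ Finset.univ.image σ).card = 2 := by
      rw [Finset.card_sdiff_of_subset (Finset.subset_univ _), Finset.card_image_of_injective _ hσinj]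
      simp
    obtain ⟨a1, a2, _, h2⟩ := Finset.card_eq_two.1 h1
    refine ⟨a1, a2, fun a => ?_⟩
    by_cases h3 : a ∈ Finset.univ.image σ
    · left
      simpa using h3
    · right
      have : a ∈ Finset.univ \ Finset.univ.image σ := by simpa using h3
      rw [h2] at this
      simpa using this
  -- the directions in coordinates
  obtain ⟨D, hD, hDX⟩ := comb (fun k => b.coord k (f a1)) (fun k => b.coord k (f a2))
    (fun k => hc1 a1 k) (fun k => hc1 a2 k) (fun i k hik => by
      have := hc2 a1 a2 i k hik
      exact this)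
  let X : V → Fin n → ℝ := fun y k => inner ℝ (f (σ k)) y
  have hXdot : ∀ a y, inner ℝ (f a) y = dotProduct (X y) (fun k => b.coord k (f a)) := by
    intro a y
    have h1 := b.sum_repr (f a)
    conv_lhs => rw [← h1, sum_inner]
    simp only [dotProduct, X]
    refine Finset.sum_congr rfl fun k _ => ?_
    rw [inner_smul_left, hbv, Basis.coord_apply]
    simp [mul_comm]
  let Φ : V →ₗ[ℝ] (Fin n → ℝ) :=
    { toFun := X
      map_add' := fun x y => by funext k; simp [X, inner_add_right]
      map_smul' := fun r x => by funext k; simp [X, inner_smul_right] }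
  have hΦinj : Function.Injective Φ := by
    rw [← LinearMap.ker_eq_bot, LinearMap.ker_eq_bot']
    intro y hy
    have h1 : X y = 0 := hy
    have h2 : inner ℝ y y = 0 := by
      have h3 : y ∈ Submodule.span ℝ (range (f ∘ σ)) := by rw [hsp']; trivial
      have h4 : ∀ z ∈ Submodule.span ℝ (range (f ∘ σ)), inner ℝ z y = 0 := by
        intro z hz
        induction hz using Submodule.span_induction with
        | mem z hz =>
          obtain ⟨k, rfl⟩ := hz
          exact congrFun h1 k
        | zero => exact inner_zero_left _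
        | add z w _ _ hz hw => rw [inner_add_left, hz, hw, add_zero]
        | smul r z _ hz => rw [inner_smul_left, hz, mul_zero]
      exact h4 y h3
    exact inner_self_eq_zero.1 h2
  have hΦsurj : Function.Surjective Φ :=
    (LinearMap.injective_iff_surjective_of_finrank_eq_finrank (by simp [hfin])).1 hΦinj
  choose δ hδ using hΦsurj
  have hδX : ∀ s, X (δ s) = s := hδ
  -- the directions
  obtain ⟨T, hT, hcov⟩ := cover_of_dirs hKconv hKcomp (D.image fun s => -(δ s)) (by
    intro x hx
    have hx' := hx
    rw [hK] at hx'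
    have hx1 : ∀ k, |X (x - p) k| ≤ 1 := fun k => hx' (σ k)
    obtain ⟨s, hs, hs1, hs2, hs3⟩ := hDX (X (x - p)) hx1
    refine ⟨-(δ s), Finset.mem_image_of_mem _ hs, ?_⟩
    have key : ∀ a, |inner ℝ (f a) (x - p)| = 1 →
        0 < inner ℝ (f a) (x - p) * inner ℝ (f a) (δ s) := by
      intro a h1
      rcases ha a with ⟨k, rfl⟩ | rfl | rfl
      · have h2 := hs1 k h1
        have h3 : inner ℝ (f (σ k)) (δ s) = s k := congrFun (hδX s) k
        rw [h3]
        exact h2
      · rw [hXdot, hXdot, hδX]
        rw [hXdot] at h1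
        exact hs2 h1
      · rw [hXdot, hXdot, hδX]
        rw [hXdot] at h1
        exact hs3 h1
    have h1 : ∀ᶠ ε in 𝓝[>] (0 : ℝ), ∀ a, |inner ℝ (f a) (x - p) - ε * inner ℝ (f a) (δ s)| < 1 :=
      eventually_all.2 fun a => ev_abs (hx' a) (key a)
    refine h1.mono fun ε hε => ?_
    have hopen : IsOpen {z : V | ∀ a, |inner ℝ (f a) (z - p)| < 1} := by
      have : {z : V | ∀ a, |inner ℝ (f a) (z - p)| < 1} =
          ⋂ a, {z | |inner ℝ (f a) (z - p)| < 1} := by ext z; simp
      rw [this]
      exact isOpen_iInter_of_finite fun a => isOpen_lt (by fun_prop) continuous_const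
    have hsub : {z : V | ∀ a, |inner ℝ (f a) (z - p)| < 1} ⊆ K := by
      rw [hK]
      exact fun z hz a => (hz a).le
    refine interior_maximal hsub hopen ?_
    intro a
    have e1 : x + ε • -(δ s) - p = (x - p) - ε • δ s := by
      rw [smul_neg]; abel
    rw [e1, inner_sub_right, inner_smul_right]
    exact hε a)
  exact ⟨T, hT.trans (Finset.card_image_le.trans hD), hcov⟩

end Pool.Agent.Helper442_Trunc
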