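import Pool.Agent.Helper442_Trunc.Basic

set_option autoImplicit false

/-!
# Independent slabs and halfspaces: circumscribed polytopes with few vertices

Auxiliary file for `MP_eba1ef_gt.Truncations`.
-/

namespace Pool.Agent.Helper442_Trunc

open Filter Topology Set Module

variable {V : Type*} [NormedAddCommGroup V] [InnerProductSpace ℝ V] [FiniteDimensional ℝ V]

/-- the box -/
theorem box_hull {k : ℕ} (α β : Fin k → ℝ) (h : ∀ i, α i ≤ β i) :
    ∃ S : Finset (Fin k → ℝ), S.card ≤ 2 ^ k ∧
      convexHull ℝ (S : Set (Fin k → ℝ)) = Set.pi univ fun i => Icc (α i) (β i) := by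
  classical
  refine ⟨Fintype.piFinset fun i => {α i, β i}, ?_, ?_⟩
  · rw [Fintype.card_piFinset]
    calc ∏ i : Fin k, ({α i, β i} : Finset ℝ).card ≤ ∏ _i : Fin k, 2 :=
          Finset.prod_le_prod' fun i _ => Finset.card_le_two
      _ = 2 ^ k := by simp
  · have e : ((Fintype.piFinset fun i => ({α i, β i} : Finset ℝ) : Finset (Fin k → ℝ)) :
        Set (Fin k → ℝ)) = Set.pi univ fun i => ({α i, β i} : Set ℝ) := by
      ext x
      simp
    rw [e, convexHull_pi]
    refine Set.pi_congr rfl fun i _ => ?_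
    rw [convexHull_pair, segment_eq_Icc (h i)]

/-- the simplex -/
theorem simplex_hull {τ : Type*} [Fintype τ] (γ : τ → ℝ) {M : ℝ} (hM : 0 < M) :
    ∃ S : Finset (τ → ℝ), S.card ≤ Fintype.card τ + 1 ∧
      (∀ z : τ → ℝ, (∀ t, z t ≤ γ t) → ∑ t, (γ t - z t) ≤ M →
        z ∈ convexHull ℝ (S : Set (τ → ℝ))) ∧
      ∀ z ∈ S, ∀ t, z t ≤ γ t := by
  classical
  refine ⟨insert γ (Finset.univ.image fun t : τ => γ - Pi.single t M), ?_, ?_, ?_⟩
  · refine (Finset.card_insert_le _ _).trans (Nat.add_le_add_right ?_ 1)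
    exact Finset.card_image_le.trans (by simp)
  · intro z hz hs
    set C := convexHull ℝ (((insert γ (Finset.univ.image fun t : τ => γ - Pi.single t M) :
      Finset (τ → ℝ))) : Set (τ → ℝ)) with hC
    have hCc : Convex ℝ C := convex_convexHull _ _
    -- a convex combination indexed by `Option τ`
    let wt : Option τ → ℝ := fun o => o.elim (1 - ∑ t, (γ t - z t) / M) fun t => (γ t - z t) / M
    let pt : Option τ → (τ → ℝ) := fun o => o.elim γ fun t => γ - Pi.single t M
    have h1 : ∑ o, wt o • pt o = z := by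
      rw [Fintype.sum_option]
      simp only [wt, pt, Option.elim]
      funext s
      simp only [Pi.add_apply, Pi.smul_apply, smul_eq_mul, Finset.sum_apply, Pi.sub_apply]
      have e : ∀ t : τ, (γ t - z t) / M * (γ s - (Pi.single t M : τ → ℝ) s) =
          (γ t - z t) / M * γ s - (if t = s then γ s - z s else 0) := by
        intro t
        rcases eq_or_ne t s with rfl | hts
        · rw [Pi.single_eq_same, if_pos rfl]
          field_simp
        · rw [Pi.single_eq_of_ne hts.symm, if_neg hts, sub_zero, sub_zero]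
      rw [Finset.sum_congr rfl fun t _ => e t, Finset.sum_sub_distrib, ← Finset.sum_mul]
      simp
      ring
    rw [← h1]
    refine hCc.sum_mem (fun o _ => ?_) ?_ fun o _ => ?_
    · cases o with
      | none =>
        show 0 ≤ 1 - ∑ t, (γ t - z t) / M
        rw [← Finset.sum_div, sub_nonneg, div_le_one hM]
        exact hs
      | some t =>
        show 0 ≤ (γ t - z t) / M
        exact div_nonneg (sub_nonneg.2 (hz t)) hM.le
    · rw [Fintype.sum_option]
      show (1 - ∑ t, (γ t - z t) / M) + ∑ t, (γ t - z t) / M = 1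
      ring
    · refine subset_convexHull _ _ ?_
      cases o with
      | none =>
        show γ ∈ _
        exact Finset.mem_coe.2 (Finset.mem_insert_self _ _)
      | some t =>
        show γ - Pi.single t M ∈ _
        exact Finset.mem_coe.2 (Finset.mem_insert_of_mem (Finset.mem_image_of_mem _
          (Finset.mem_univ _)))
  · intro z hz t
    rcases Finset.mem_insert.1 hz with rfl | hz
    · exact le_rfl
    · obtain ⟨s, _, rfl⟩ := Finset.mem_image.1 hz
      rw [Pi.sub_apply]
      have : 0 ≤ (Pi.single s M : τ → ℝ) t := by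
        rcases eq_or_ne t s with rfl | h
        · rw [Pi.single_eq_same]; exact hM.le
        · rw [Pi.single_eq_of_ne h]
      linarith

/-- a polytope with few vertices between a bounded set and the polyhedron -/
theorem slab_poly {k m : ℕ} (a : Fin k → V) (c : Fin m → V)
    (hli : LinearIndependent ℝ (Sum.elim a c)) (α β : Fin k → ℝ) (γ : Fin m → ℝ) (K : Set V)
    (hKne : K.Nonempty) (hKb : Bornology.IsBounded K)
    (hK : ∀ x ∈ K, (∀ i, α i ≤ inner ℝ (a i) x ∧ inner ℝ (a i) x ≤ β i) ∧
      ∀ j, inner ℝ (c j) x ≤ γ j) :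
    k ≤ finrank ℝ V ∧
    ∃ W : Finset V, W.card ≤ 2 ^ k * (finrank ℝ V - k + 1) ∧ K ⊆ convexHull ℝ (W : Set V) ∧
      ∀ x ∈ convexHull ℝ (W : Set V),
        (∀ i, α i ≤ inner ℝ (a i) x ∧ inner ℝ (a i) x ≤ β i) ∧ ∀ j, inner ℝ (c j) x ≤ γ j := by
  classical
  set L := Submodule.span ℝ (Set.range (Sum.elim a c)) with hL
  have hLd : finrank ℝ L = k + m := by
    rw [hL, finrank_span_eq_card hli]
    simp
  have hd := Submodule.finrank_add_finrank_orthogonal L
  rw [hLd] at hd
  set q := finrank ℝ Lᗮ with hq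
  let e := stdOrthonormalBasis ℝ Lᗮ
  let τ := Fin m ⊕ Fin q
  have hcardτ : Fintype.card τ = finrank ℝ V - k := by
    simp only [τ, Fintype.card_sum, Fintype.card_fin]
    omega
  refine ⟨by omega, ?_⟩
  let v : τ → V := Sum.elim c fun r => (e r : V)
  let Φ : V →ₗ[ℝ] (Fin k → ℝ) × (τ → ℝ) :=
    { toFun := fun x => (fun i => inner ℝ (a i) x, fun t => inner ℝ (v t) x)
      map_add' := fun x y => by
        ext i
        · simp [inner_add_right]
        · simp [inner_add_right]
      map_smul' := fun s x => by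
        ext i
        · simp [inner_smul_right]
        · simp [inner_smul_right] }
  have hΦ1 : ∀ x i, (Φ x).1 i = inner ℝ (a i) x := fun _ _ => rfl
  have hΦ2 : ∀ x t, (Φ x).2 t = inner ℝ (v t) x := fun _ _ => rfl
  have hinj : Function.Injective Φ := by
    rw [← LinearMap.ker_eq_bot, LinearMap.ker_eq_bot']
    intro x hx
    have h1 : ∀ i, inner ℝ (a i) x = 0 := fun i => by rw [← hΦ1, hx]; rfl
    have h2 : ∀ t, inner ℝ (v t) x = 0 := fun t => by rw [← hΦ2, hx]; rfl
    have hxL : x ∈ Lᗮ := by
      rw [Submodule.mem_orthogonal]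
      intro u hu
      rw [hL] at hu
      induction hu using Submodule.span_induction with
      | mem u hu =>
        obtain ⟨s, rfl⟩ := hu
        cases s with
        | inl i => exact h1 i
        | inr j => exact h2 (Sum.inl j)
      | zero => exact inner_zero_left _
      | add u w _ _ hu hw => rw [inner_add_left, hu, hw, add_zero]
      | smul r u _ hu => rw [inner_smul_left, hu, mul_zero]
    have h3 : ∀ r, inner ℝ (e r) (⟨x, hxL⟩ : Lᗮ) = 0 := fun r => h2 (Sum.inr r)
    have h4 : (⟨x, hxL⟩ : Lᗮ) = 0 := by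
      have h5 := e.sum_repr' (⟨x, hxL⟩ : Lᗮ)
      rw [← h5]
      exact Finset.sum_eq_zero fun r _ => by rw [h3 r, zero_smul]
    exact congrArg Subtype.val h4
  have hdim : finrank ℝ V = finrank ℝ ((Fin k → ℝ) × (τ → ℝ)) := by
    rw [Module.finrank_prod, Module.finrank_fintype_fun_eq_card, Module.finrank_fintype_fun_eq_card,
      Fintype.card_fin, hcardτ]
    omega
  let Ψ : V ≃ₗ[ℝ] (Fin k → ℝ) × (τ → ℝ) := LinearEquiv.ofInjectiveOfFinrankEq Φ hinj hdim
  have hΨ : ∀ x, Ψ x = Φ x := fun _ => rfl
  -- bounds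
  obtain ⟨R, hR⟩ := hKb.exists_norm_le
  have hR0 : 0 ≤ R := by
    obtain ⟨x, hx⟩ := hKne
    exact (norm_nonneg x).trans (hR x hx)
  let γ' : τ → ℝ := Sum.elim γ fun r => ‖(e r : V)‖ * R
  let M : ℝ := (∑ t, (|γ' t| + ‖v t‖ * R)) + 1
  have hM : 0 < M := by
    have : 0 ≤ ∑ t, (|γ' t| + ‖v t‖ * R) := Finset.sum_nonneg fun t _ => by positivity
    linarith
  have hαβ : ∀ i, α i ≤ β i := fun i => by
    obtain ⟨x, hx⟩ := hKne
    have := (hK x hx).1 i
    linarith [this.1, this.2]
  obtain ⟨S, hS, hSh⟩ := box_hull α β hαβ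
  obtain ⟨T, hT, hTh, hTg⟩ := simplex_hull γ' hM
  refine ⟨(S ×ˢ T).image Ψ.symm, ?_, ?_, ?_⟩
  · refine Finset.card_image_le.trans ?_
    rw [Finset.card_product]
    rw [hcardτ] at hT
    exact Nat.mul_le_mul hS hT
  · intro x hx
    have h1 : Ψ x ∈ convexHull ℝ ((S : Set (Fin k → ℝ)) ×ˢ (T : Set (τ → ℝ))) := by
      rw [convexHull_prod]
      refine ⟨?_, ?_⟩
      · rw [hSh]
        intro i _
        exact (hK x hx).1 i
      · have hin : ∀ t, |inner ℝ (v t) x| ≤ ‖v t‖ * R := fun t =>
          (abs_real_inner_le_norm _ _).trans (by gcongr; exact hR x hx)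
        refine hTh _ (fun t => ?_) ?_
        · show inner ℝ (v t) x ≤ γ' t
          cases t with
          | inl j => exact (hK x hx).2 j
          | inr r => exact (le_abs_self _).trans (hin (Sum.inr r))
        · show ∑ t, (γ' t - inner ℝ (v t) x) ≤ M
          have : ∑ t, (γ' t - inner ℝ (v t) x) ≤ ∑ t, (|γ' t| + ‖v t‖ * R) := by
            refine Finset.sum_le_sum fun t _ => ?_
            have h2 := abs_le.1 (hin t)
            have h3 := le_abs_self (γ' t)
            linarith [h2.1]
          linarith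
    have h2 : x ∈ Ψ.symm.toLinearMap '' convexHull ℝ ((S : Set (Fin k → ℝ)) ×ˢ
        (T : Set (τ → ℝ))) := ⟨Ψ x, h1, Ψ.symm_apply_apply x⟩
    rw [LinearMap.image_convexHull] at h2
    rw [Finset.coe_image, Finset.coe_product]
    exact h2
  · -- the constraints
    let Q : Set V := {x | (∀ i, α i ≤ inner ℝ (a i) x ∧ inner ℝ (a i) x ≤ β i) ∧
      ∀ j, inner ℝ (c j) x ≤ γ j}
    have hQ : Convex ℝ Q := by
      intro x hx y hy s t hs ht hst
      have comb : ∀ p q r : ℝ, p ≤ r → q ≤ r → s * p + t * q ≤ r := by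
        intro p q r h1 h2
        have h3 := mul_le_mul_of_nonneg_left h1 hs
        have h4 := mul_le_mul_of_nonneg_left h2 ht
        have h5 : s * r + t * r = r := by rw [← add_mul, hst, one_mul]
        linarith
      have comb' : ∀ p q r : ℝ, r ≤ p → r ≤ q → r ≤ s * p + t * q := by
        intro p q r h1 h2
        have h3 := mul_le_mul_of_nonneg_left h1 hs
        have h4 := mul_le_mul_of_nonneg_left h2 ht
        have h5 : s * r + t * r = r := by rw [← add_mul, hst, one_mul]
        linarith
      refine ⟨fun i => ?_, fun j => ?_⟩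
      · rw [inner_add_right, inner_smul_right, inner_smul_right]
        exact ⟨comb' _ _ _ (hx.1 i).1 (hy.1 i).1, comb _ _ _ (hx.1 i).2 (hy.1 i).2⟩
      · rw [inner_add_right, inner_smul_right, inner_smul_right]
        exact comb _ _ _ (hx.2 j) (hy.2 j)
    have hsub : (((S ×ˢ T).image Ψ.symm : Finset V) : Set V) ⊆ Q := by
      intro x hx
      rw [Finset.mem_coe, Finset.mem_image] at hx
      obtain ⟨y, hy, rfl⟩ := hx
      rw [Finset.mem_product] at hy
      have h1 : Φ (Ψ.symm y) = y := Ψ.apply_symm_apply y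
      have h2 : y.1 ∈ Set.pi univ fun i => Icc (α i) (β i) := by
        rw [← hSh]
        exact subset_convexHull _ _ (Finset.mem_coe.2 hy.1)
      refine ⟨fun i => ?_, fun j => ?_⟩
      · rw [← hΦ1, h1]
        exact h2 i (mem_univ i)
      · have h3 : inner ℝ (c j) (Ψ.symm y) = y.2 (Sum.inl j) := by
          have := hΦ2 (Ψ.symm y) (Sum.inl j)
          rw [h1] at this
          exact this.symm
        rw [h3]
        exact hTg _ hy.2 (Sum.inl j)
    intro x hx
    exact convexHull_min hsub hQ hx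

end Pool.Agent.Helper442_Trunc
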